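import Mathlib

namespace Pool.Agent.Results.MP_b525e0_co.Counter

open Finset

noncomputable def pauli (v : EuclideanSpace ℝ (Fin 3)) : Matrix (Fin 2) (Fin 2) ℂ :=
  (v 0 : ℂ) • !![0, 1; 1, 0] + (v 1 : ℂ) • !![0, -Complex.I; Complex.I, 0] +
    (v 2 : ℂ) • !![1, 0; 0, -1]

def Valid {V : Type} (G : SimpleGraph V) (x : V → EuclideanSpace ℝ (Fin 3))
    (ψ : G.Dart → Fin 2 → ℂ) : Prop :=
  ∀ d : G.Dart, ‖ψ d 0‖ ^ 2 + ‖ψ d 1‖ ^ 2 = 1 ∧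
    (pauli (‖x d.snd - x d.fst‖⁻¹ • (x d.snd - x d.fst))).mulVec (ψ d) = ψ d

def om (u v : Fin 2 → ℂ) : ℂ := u 0 * v 1 - v 0 * u 1

theorem eig_iff (w : EuclideanSpace ℝ (Fin 3)) (l a b : ℝ) (hl : 0 < l) (hab : 0 < a ^ 2 + b ^ 2)
    (h0 : w 0 = l * (2 * a * b)) (h1 : w 1 = 0) (h2 : w 2 = l * (a ^ 2 - b ^ 2))
    (ψ : Fin 2 → ℂ) :
    (pauli (‖w‖⁻¹ • w)).mulVec ψ = ψ ↔ ∃ c : ℂ, ψ 0 = c * a ∧ ψ 1 = c * b := by
  have hn : ‖w‖ = l * (a ^ 2 + b ^ 2) := by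
    rw [EuclideanSpace.norm_eq, Fin.sum_univ_three, h0, h1, h2]
    rw [Real.sqrt_eq_iff_mul_self_eq (by positivity) (by positivity)]
    simp only [Real.norm_eq_abs, sq_abs]
    ring
  have hc : ((a : ℂ) ^ 2 + (b : ℂ) ^ 2) ≠ 0 := by exact_mod_cast hab.ne'
  have hl' : (l : ℂ) ≠ 0 := by exact_mod_cast hl.ne'
  have e : (pauli (‖w‖⁻¹ • w)).mulVec ψ = ψ ↔
      (((a : ℂ) ^ 2 - b ^ 2) * ψ 0 + 2 * a * b * ψ 1) / (a ^ 2 + b ^ 2) = ψ 0 ∧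
      (2 * a * b * ψ 0 - ((a : ℂ) ^ 2 - b ^ 2) * ψ 1) / (a ^ 2 + b ^ 2) = ψ 1 := by
    rw [funext_iff, Fin.forall_fin_two]
    apply and_congr <;> apply Eq.congr_left <;>
      simp [pauli, Matrix.mulVec, dotProduct, Fin.sum_univ_two, hn, h0, h1, h2] <;> field_simp
    ring
  rw [e, div_eq_iff hc, div_eq_iff hc]
  constructor
  · rintro ⟨e1, e2⟩
    refine ⟨(a * ψ 0 + b * ψ 1) / (a ^ 2 + b ^ 2), ?_, ?_⟩
    · field_simp
      linear_combination (-1 / 2 : ℂ) * e1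
    · field_simp
      linear_combination (-1 / 2 : ℂ) * e2
  · rintro ⟨c, e1, e2⟩
    rw [e1, e2]
    constructor <;> ring

def par (j : Fin 12) : Fin 12 := if j ≤ 6 then 0 else 1

def G : SimpleGraph (Fin 12) where
  Adj i j := i ≠ j ∧ (par i = j ∨ par j = i)
  symm := ⟨fun _ _ h => ⟨h.1.symm, h.2.symm⟩⟩
  loopless := ⟨fun _ h => h.1 rfl⟩

instance : DecidableRel G.Adj := fun i j => inferInstanceAs (Decidable (i ≠ j ∧ _))

def X : Fin 12 → ℤ := ![0, 0, 4, 8, 12, 16, 20, 4, 8, 12, 16, 20]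
def Z : Fin 12 → ℤ := ![0, 1, -3, -6, -9, -12, -15, 4, 7, 10, 13, 16]
def L : Fin 12 → ℤ := ![1, 1, 1, 2, 3, 4, 5, 1, 2, 3, 4, 5]

def pp (i j : Fin 12) : ℤ × ℤ := if i = 0 then (if j = 1 then (1, 0) else (1, 2)) else
  if i = 1 then (if j = 0 then (0, 1) else (2, 1)) else if i ≤ 6 then (-2, 1) else (-1, 2)

def pd (d : G.Dart) : ℤ × ℤ := pp d.fst d.snd

def oz (u v : ℤ × ℤ) : ℤ := u.1 * v.2 - v.1 * u.2

def ga (d : G.Dart) : ℤ :=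
  if d.fst = 0 then oz (pd d) (-2, 1) else if d.fst = 1 then oz (pd d) (-1, 2) else 1

def e0 : G.Dart := ⟨(0, 1), by decide⟩

theorem data : ∀ i j : Fin 12, G.Adj i j → 0 < L (max i j) ∧ 0 < (pp i j).1 ^ 2 + (pp i j).2 ^ 2 ∧
    X j - X i = L (max i j) * (2 * (pp i j).1 * (pp i j).2) ∧
    Z j - Z i = L (max i j) * ((pp i j).1 ^ 2 - (pp i j).2 ^ 2) ∧ oz (pp i j) (pp j i) ≠ 0 := by
  decide

theorem ga_ne : ∀ d, ga d ≠ 0 := by decide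

theorem total : ∑ q ∈ ({a | a.fst = 0} : Finset G.Dart) ×ˢ ({a | a.fst = 1} : Finset G.Dart),
    (oz (pd q.1) (pd q.2) : ℚ) / (ga q.1 * ga q.2) = 0 := by decide +kernel

noncomputable def pt (i : Fin 12) : EuclideanSpace ℝ (Fin 3) := !₂[(X i : ℝ), 0, (Z i : ℝ)]

theorem valid_iff (d : G.Dart) (u : Fin 2 → ℂ) :
    (pauli (‖pt d.snd - pt d.fst‖⁻¹ • (pt d.snd - pt d.fst))).mulVec u = u ↔
      ∃ c : ℂ, u 0 = c * (pd d).1 ∧ u 1 = c * (pd d).2 := by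
  obtain ⟨h1, h2, h3, h4, -⟩ := data _ _ d.adj
  simpa using eig_iff (pt d.snd - pt d.fst) (L (max d.fst d.snd)) (pd d).1 (pd d).2
    (by exact_mod_cast h1) (by exact_mod_cast h2) (by simp [pt, pd]; exact_mod_cast h3)
    (by simp [pt]) (by simp [pt, pd]; exact_mod_cast h4) u

theorem orient (Δ Δ' : Finset G.Dart) (h : ∀ d, d ∈ Δ ↔ d.symm ∉ Δ)
    (h' : ∀ d, d ∈ Δ' ↔ d.symm ∉ Δ') : ∃ ε : ℂ, ∀ g : G.Dart → ℂ, (∀ d, g d.symm = -g d) →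
      ∏ d ∈ Δ, g d = ε * ∏ d ∈ Δ', g d := by
  refine ⟨∏ d ∈ Δ', if d ∈ Δ then 1 else -1, fun g hg => ?_⟩
  rw [← prod_mul_distrib]
  refine prod_nbij' (fun d => if d ∈ Δ' then d else d.symm) (fun d => if d ∈ Δ then d else d.symm)
    (fun d _ => ?_) (fun d _ => ?_) (fun d hd => ?_) (fun d hd => ?_) fun d hd => ?_
  · split_ifs with c
    exacts [c, by_contra fun c' => c ((h' d).2 c')]
  · split_ifs with c
    exacts [c, by_contra fun c' => c ((h d).2 c')]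
  · by_cases c : d ∈ Δ' <;> simp [c, hd, (h d).1 hd]
  · by_cases c : d ∈ Δ <;> simp [c, hd, (h' d).1 hd]
  · by_cases c : d ∈ Δ' <;> simp [c, hd, (h d).1 hd, hg]

theorem halves (Δ : Finset G.Dart) (h : ∀ d, d ∈ Δ ↔ d.symm ∉ Δ) (f : G.Dart → ℂ) :
    ∏ d ∈ Δ, f d * f d.symm = ∏ d, f d := by
  rw [prod_mul_distrib, ← prod_mul_prod_compl Δ]
  congr 1
  exact prod_nbij' (·.symm) (·.symm) (fun d hd => mem_compl.2 ((h d).1 hd))
    (fun d hd => by_contra fun c => mem_compl.1 hd ((h d).2 c)) (by simp) (by simp) (by simp)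

theorem term (σ : Equiv.Perm G.Dart) (hσ : ∀ d, (σ d).fst = d.fst) :
    ∏ d ∈ ({d | d.fst < d.snd} : Finset G.Dart), (oz (pd (σ d)) (pd (σ d.symm)) : ℂ) =
      (∏ d, (ga d : ℂ)) * (((oz (pd (σ e0)) (pd (σ e0.symm)) : ℚ) /
        (ga (σ e0) * ga (σ e0.symm)) : ℚ) : ℂ) := by
  have n1 : (ga (σ e0) : ℂ) ≠ 0 := by exact_mod_cast ga_ne _
  have n2 : (ga (σ e0.symm) : ℂ) ≠ 0 := by exact_mod_cast ga_ne _
  rw [← Equiv.prod_comp σ, ← mul_prod_erase _ _ (mem_univ e0),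
    ← mul_prod_erase _ _ (show e0.symm ∈ univ.erase e0 by decide),
    ← mul_prod_erase _ _ (show e0 ∈ ({d | d.fst < d.snd} : Finset G.Dart) by decide),
    ← prod_subset (s₁ := ({d | d.fst < d.snd} : Finset G.Dart).erase e0)
      (s₂ := (univ.erase e0).erase e0.symm) (by decide),
    prod_congr rfl (g := fun d => (ga (σ d) : ℂ))]
  · push_cast
    field_simp
  · intro d hd
    have k : ∀ d ∈ ({d | d.fst < d.snd} : Finset G.Dart).erase e0, (d.fst = 0 ∧ ∀ j,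
      pp d.snd j = (-2, 1)) ∨ (d.fst = 1 ∧ ∀ j, pp d.snd j = (-1, 2)) := by decide
    have a : pd (σ d.symm) = pp d.snd (σ d.symm).snd := by rw [pd, hσ]; rfl
    rcases k d hd with ⟨h1, h2⟩ | ⟨h1, h2⟩ <;> simp [ga, hσ, a, h1, h2]
  · intro d h1 h2
    have k : ∀ d ∈ (univ.erase e0).erase e0.symm, d ∉ ({d | d.fst < d.snd} :
      Finset G.Dart).erase e0 → d.fst ≠ 0 ∧ d.fst ≠ 1 := by decide
    simp [ga, hσ, k d h1 h2]

theorem avg (P : Finset (Equiv.Perm G.Dart)) (hP : ∀ σ, σ ∈ P ↔ ∀ d, (σ d).fst = d.fst)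
    (F : G.Dart × G.Dart → ℚ) : ∃ N : ℚ, ∑ σ ∈ P, F (σ e0, σ e0.symm) =
      N * ∑ q ∈ ({a | a.fst = 0} : Finset G.Dart) ×ˢ ({a | a.fst = 1} : Finset G.Dart), F q := by
  refine ⟨#{σ ∈ P | (σ e0, σ e0.symm) = (e0, e0.symm)}, ?_⟩
  rw [← sum_fiberwise_of_maps_to (g := fun σ : Equiv.Perm G.Dart => (σ e0, σ e0.symm))
    (t := ({a | a.fst = 0} : Finset G.Dart) ×ˢ ({a | a.fst = 1} : Finset G.Dart))
    (fun σ hσ => by simp [(hP σ).1 hσ, e0]), mul_sum]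
  refine sum_congr rfl fun ⟨a, b⟩ hq => ?_
  simp only [mem_product, mem_filter, mem_univ, true_and] at hq
  rw [sum_congr rfl fun σ hσ => by rw [(mem_filter.1 hσ).2], sum_const, nsmul_eq_mul]
  have sw : ∀ x y d : G.Dart, x.fst = y.fst → (Equiv.swap x y d).fst = d.fst := by
    intro x y d h
    rw [Equiv.swap_apply_def]
    split_ifs with h1 h2 <;> simp [*]
  have ne : ∀ x y : G.Dart, x.fst = 0 → y.fst = 1 → x ≠ y := by
    rintro x y h1 h2 rfl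
    simp [h1] at h2
  let τ := Equiv.swap a e0 * Equiv.swap b e0.symm
  have t0 : ∀ d, (τ d).fst = d.fst := fun d => by
    rw [Equiv.Perm.mul_apply, sw _ _ _ hq.1, sw _ _ _ hq.2]
  have t1 : τ a = e0 := by
    rw [Equiv.Perm.mul_apply, Equiv.swap_apply_of_ne_of_ne (ne _ _ hq.1 hq.2) (ne _ _ hq.1 rfl),
      Equiv.swap_apply_left]
  have t2 : τ b = e0.symm := by
    rw [Equiv.Perm.mul_apply, Equiv.swap_apply_left,
      Equiv.swap_apply_of_ne_of_ne (ne _ _ hq.1 rfl).symm (ne _ _ rfl rfl).symm]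
  congr 2
  refine card_equiv (Equiv.mulLeft τ) fun σ => ?_
  simp only [mem_filter, hP, Equiv.coe_mulLeft, Equiv.Perm.mul_apply τ, t0, Prod.mk.injEq]
  rw [← τ.apply_eq_iff_eq (x := σ e0), ← τ.apply_eq_iff_eq (x := σ e0.symm), t1, t2]

theorem result : ∃ (n : ℕ) (G : SimpleGraph (Fin n)) (x : Fin n → EuclideanSpace ℝ (Fin 3)),
    Function.Injective x ∧ (∃ ψ, Valid G x ψ) ∧
    ∀ (ψ : G.Dart → Fin 2 → ℂ) (Δ : Finset G.Dart) (P : Finset (Equiv.Perm G.Dart)),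
      Valid G x ψ → (∀ d, d ∈ Δ ↔ d.symm ∉ Δ) → (∀ σ, σ ∈ P ↔ ∀ d, (σ d).fst = d.fst) →
      ∏ d ∈ Δ, om (ψ d) (ψ d.symm) ≠ 0 ∧
      (∑ σ ∈ P, ∏ d ∈ Δ, om (ψ (σ d)) (ψ (σ d.symm))) / ∏ d ∈ Δ, om (ψ d) (ψ d.symm) = 0 := by
  refine ⟨12, G, pt, ?_, ?_, ?_⟩
  · intro i j e
    have h1 : X i = X j := by simpa [pt] using congrArg (· 0) e
    have h2 : Z i = Z j := by simpa [pt] using congrArg (· 2) e
    clear e
    revert i j
    decide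
  · refine ⟨fun d => ![((√(((pd d).1 : ℝ) ^ 2 + ((pd d).2 : ℝ) ^ 2))⁻¹ : ℝ) * (pd d).1,
      ((√(((pd d).1 : ℝ) ^ 2 + ((pd d).2 : ℝ) ^ 2))⁻¹ : ℝ) * (pd d).2], fun d => ⟨?_, ?_⟩⟩
    · have h : 0 < ((pd d).1 : ℝ) ^ 2 + ((pd d).2 : ℝ) ^ 2 := by
        exact_mod_cast (data _ _ d.adj).2.1
      simp only [Matrix.cons_val_zero, Matrix.cons_val_one, norm_mul, Complex.norm_real,
        Complex.norm_intCast, Real.norm_eq_abs, mul_pow, sq_abs, inv_pow, Real.sq_sqrt h.le]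
      field_simp
    · exact (valid_iff d _).2 ⟨_, rfl, rfl⟩
  · intro ψ Δ P hψ hΔ hP
    choose c hc using fun d => (valid_iff d (ψ d)).1 (hψ d).2
    have hc0 : ∀ d, c d ≠ 0 := by
      intro d e
      have := (hψ d).1
      rw [(hc d).1, (hc d).2, e] at this
      simp at this
    have ho : ∀ a b, om (ψ a) (ψ b) = c a * c b * oz (pd a) (pd b) := fun a b => by
      rw [om, (hc _).1, (hc _).2, (hc _).1, (hc _).2, oz]
      push_cast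
      ring
    refine ⟨prod_ne_zero_iff.2 fun d _ => ?_, div_eq_zero_iff.2 (Or.inl ?_)⟩
    · rw [ho]
      exact mul_ne_zero (mul_ne_zero (hc0 _) (hc0 _)) (by exact_mod_cast (data _ _ d.adj).2.2.2.2)
    obtain ⟨ε, hε⟩ := orient Δ {d | d.fst < d.snd} hΔ (by decide)
    obtain ⟨N, hN⟩ := avg P hP fun q => (oz (pd q.1) (pd q.2) : ℚ) / (ga q.1 * ga q.2)
    rw [total, mul_zero] at hN
    have : ∀ σ ∈ P, ∏ d ∈ Δ, om (ψ (σ d)) (ψ (σ d.symm)) = (∏ d, c d) * ε * (∏ d, (ga d : ℂ)) *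
        (((oz (pd (σ e0)) (pd (σ e0.symm)) : ℚ) / (ga (σ e0) * ga (σ e0.symm)) : ℚ) : ℂ) := by
      intro σ hσ
      simp only [ho]
      rw [prod_mul_distrib, halves Δ hΔ fun d => c (σ d), Equiv.prod_comp σ,
        hε (fun d => (oz (pd (σ d)) (pd (σ d.symm)) : ℂ)) fun d => by simp [oz],
        term σ ((hP σ).1 hσ)]
      ring
    rw [sum_congr rfl this, ← mul_sum, ← Rat.cast_sum, hN]
    simp

end Pool.Agent.Results.MP_b525e0_co.Counter
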